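import Pool.Agent.H38.BT.Lower

/-! Sums over the vertices of a fixed depth, and the heap numbering. -/

noncomputable section

namespace H38.BT

/-- sum over all vertices of depth `d` -/
def SS : ℕ → (List Bool → ℝ) → ℝ
  | 0, f => f []
  | d + 1, f => SS d (fun l => f (true :: l)) + SS d (fun l => f (false :: l))

theorem SS_add : ∀ (d : ℕ) (f g : List Bool → ℝ),
    SS d (fun l => f l + g l) = SS d f + SS d g
  | 0, _, _ => rfl
  | d + 1, f, g => by
      simp only [SS]
      rw [SS_add d (fun l => f (true :: l)) (fun l => g (true :: l)),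
        SS_add d (fun l => f (false :: l)) (fun l => g (false :: l))]
      ring

theorem SS_mul (c : ℝ) : ∀ (d : ℕ) (f : List Bool → ℝ), SS d (fun l => c * f l) = c * SS d f
  | 0, _ => rfl
  | d + 1, f => by
      simp only [SS]
      rw [SS_mul c d (fun l => f (true :: l)), SS_mul c d (fun l => f (false :: l))]
      ring

theorem SS_const (c : ℝ) : ∀ d : ℕ, SS d (fun _ => c) = 2 ^ d * c
  | 0 => by simp [SS]
  | d + 1 => by
      simp only [SS]
      rw [SS_const c d]
      ring

theorem SS_mono : ∀ (d : ℕ) (f g : List Bool → ℝ), (∀ l, l.length = d → f l ≤ g l) →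
    SS d f ≤ SS d g
  | 0, f, g, h => h [] rfl
  | d + 1, f, g, h => by
      simp only [SS]
      exact add_le_add (SS_mono d _ _ fun l hl => h _ (by simp [hl]))
        (SS_mono d _ _ fun l hl => h _ (by simp [hl]))

theorem SS_congr (d : ℕ) (f g : List Bool → ℝ) (h : ∀ l, l.length = d → f l = g l) :
    SS d f = SS d g :=
  le_antisymm (SS_mono d f g fun l hl => (h l hl).le) (SS_mono d g f fun l hl => (h l hl).ge)

theorem SS_append : ∀ (d : ℕ) (f : List Bool → ℝ),
    SS (d + 1) f = SS d (fun l => f (l ++ [true])) + SS d (fun l => f (l ++ [false]))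
  | 0, f => rfl
  | d + 1, f => by
      rw [SS, SS_append d (fun l => f (true :: l)), SS_append d (fun l => f (false :: l))]
      rw [show SS (d + 1) (fun l => f (l ++ [true]))
          = SS d (fun l => f (true :: l ++ [true])) + SS d (fun l => f (false :: l ++ [true]))
        from rfl]
      rw [show SS (d + 1) (fun l => f (l ++ [false]))
          = SS d (fun l => f (true :: l ++ [false])) + SS d (fun l => f (false :: l ++ [false]))
        from rfl]
      simp only [List.cons_append]
      ring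

/-- the cost of the two edges below the vertex `l` -/
def gg (x : List Bool → ℝ) (l : List Bool) : ℝ :=
  (x l - x (true :: l)) ^ 2 + (x l - x (false :: l)) ^ 2

theorem E_eq : ∀ (K : ℕ) (x : List Bool → ℝ), E K x = ∑ d ∈ Finset.range K, SS d (gg x)
  | 0, x => by simp [E]
  | K + 1, x => by
      rw [E, E_eq K, E_eq K, Finset.sum_range_succ' (fun d => SS d (gg x))]
      have h1 : ∀ d, SS (d + 1) (gg x) = SS d (gg (sub true x)) + SS d (gg (sub false x)) := by
        intro d
        rw [SS_append]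
        rfl
      simp only [h1, Finset.sum_add_distrib]
      have h2 : SS 0 (gg x) = (x [] - sub true x []) ^ 2 + (x [] - sub false x []) ^ 2 := rfl
      rw [h2]
      ring

/-- heap number of a vertex -/
def enc : List Bool → ℕ
  | [] => 1
  | b :: l => 2 * enc l + (if b then 1 else 0)

theorem enc_bounds : ∀ l : List Bool, 2 ^ l.length ≤ enc l ∧ enc l < 2 ^ (l.length + 1)
  | [] => by simp [enc]
  | b :: l => by
      have := enc_bounds l
      have h1 : 2 ^ (l.length + 1) = 2 * 2 ^ l.length := by ring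
      have h2 : 2 ^ (l.length + 1 + 1) = 2 * 2 ^ (l.length + 1) := by ring
      simp only [List.length_cons, enc]
      cases b <;> simp <;> omega

theorem enc_inj : Function.Injective enc
  | [], [], _ => rfl
  | [], b :: l, h => by
      have := enc_bounds l
      have h1 : 1 ≤ 2 ^ l.length := Nat.one_le_two_pow
      simp only [enc] at h
      omega
  | b :: l, [], h => by
      have := enc_bounds l
      have h1 : 1 ≤ 2 ^ l.length := Nat.one_le_two_pow
      simp only [enc] at h
      omega
  | b :: l, b' :: l', h => by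
      have h1 : enc l = enc l' ∧ b = b' := by
        simp only [enc] at h
        cases b <;> cases b' <;> simp at h ⊢ <;> omega
      rw [enc_inj h1.1, h1.2]

theorem sum_Ico_double (φ : ℕ → ℝ) (a : ℕ) : ∀ b : ℕ, a ≤ b →
    ∑ i ∈ Finset.Ico (2 * a) (2 * b), φ i = ∑ i ∈ Finset.Ico a b, (φ (2 * i) + φ (2 * i + 1)) := by
  intro b hb
  induction b, hb using Nat.le_induction with
  | base => simp
  | succ b hb ih =>
      rw [Finset.sum_Ico_succ_top hb, ← ih, show 2 * (b + 1) = 2 * b + 1 + 1 by ring,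
        Finset.sum_Ico_succ_top (by omega), Finset.sum_Ico_succ_top (by omega)]
      ring

theorem SS_enc : ∀ (d : ℕ) (φ : ℕ → ℝ),
    SS d (fun l => φ (enc l)) = ∑ i ∈ Finset.Ico (2 ^ d) (2 ^ (d + 1)), φ i
  | 0, φ => by simp [SS, enc]
  | d + 1, φ => by
      have h1 : SS (d + 1) (fun l => φ (enc l))
          = SS d (fun l => φ (2 * enc l + 1)) + SS d (fun l => φ (2 * enc l)) := by
        simp [SS, enc]
      rw [h1, SS_enc d (fun i => φ (2 * i + 1)), SS_enc d (fun i => φ (2 * i)),
        show 2 ^ (d + 1 + 1) = 2 * 2 ^ (d + 1) by ring,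
        show Finset.Ico (2 ^ (d + 1)) (2 * 2 ^ (d + 1)) = Finset.Ico (2 * 2 ^ d) (2 * 2 ^ (d + 1))
          by rw [show 2 ^ (d + 1) = 2 * 2 ^ d by ring],
        sum_Ico_double φ _ _ (Nat.pow_le_pow_right (by norm_num) (by omega)),
        Finset.sum_add_distrib]
      ring

theorem sum_levels (φ : ℕ → ℝ) : ∀ K : ℕ,
    ∑ i ∈ Finset.Ico 1 (2 ^ K), φ i
      = ∑ d ∈ Finset.range K, ∑ i ∈ Finset.Ico (2 ^ d) (2 ^ (d + 1)), φ i
  | 0 => by simp
  | K + 1 => by
      rw [Finset.sum_range_succ, ← sum_levels φ K,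
        Finset.sum_Ico_consecutive _ Nat.one_le_two_pow
          (Nat.pow_le_pow_right (by norm_num) (by omega))]

/-- the cost in the heap numbering is the energy `E` -/
theorem cost_eq (K : ℕ) (y : ℕ → ℝ) :
    ∑ i ∈ Finset.Icc 2 (2 ^ (K + 1) - 1), (y i - y (i / 2)) ^ 2 = E K (fun l => y (enc l)) := by
  have h0 : Finset.Icc 2 (2 ^ (K + 1) - 1) = Finset.Ico (2 * 1) (2 * 2 ^ K) := by
    ext i
    have : 1 ≤ 2 ^ K := Nat.one_le_two_pow
    have h : 2 ^ (K + 1) = 2 * 2 ^ K := by ring
    simp only [Finset.mem_Icc, Finset.mem_Ico]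
    omega
  rw [h0, sum_Ico_double _ _ _ Nat.one_le_two_pow, sum_levels, E_eq]
  apply Finset.sum_congr rfl
  intro d _
  rw [← SS_enc d (fun i => (y (2 * i) - y (2 * i / 2)) ^ 2
    + (y (2 * i + 1) - y ((2 * i + 1) / 2)) ^ 2)]
  congr 1
  funext l
  have h1 : 2 * enc l / 2 = enc l := by omega
  have h2 : (2 * enc l + 1) / 2 = enc l := by omega
  rw [h1, h2]
  simp only [gg, enc]
  simp
  ring

/-- a decoding of heap numbers -/
def dec : ℕ → List Bool := Function.invFun enc

theorem dec_enc (l : List Bool) : dec (enc l) = l := Function.leftInverse_invFun enc_inj l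

theorem exists_enc : ∀ (i : ℕ), 1 ≤ i → ∃ l, enc l = i := by
  intro i
  induction i using Nat.strong_induction_on with
  | _ i ih =>
    intro hi
    rcases Nat.lt_or_ge i 2 with h | h
    · exact ⟨[], by simp [enc]; omega⟩
    · obtain ⟨l, hl⟩ := ih (i / 2) (by omega) (by omega)
      rcases Nat.mod_two_eq_zero_or_one i with h2 | h2
      · exact ⟨false :: l, by simp [enc, hl]; omega⟩
      · exact ⟨true :: l, by simp [enc, hl]; omega⟩

theorem enc_dec {i : ℕ} (hi : 1 ≤ i) : enc (dec i) = i := by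
  obtain ⟨l, rfl⟩ := exists_enc i hi
  rw [dec_enc]

theorem length_dec {K i : ℕ} (hi : 1 ≤ i) (h : i < 2 ^ (K + 1)) : (dec i).length ≤ K := by
  have h1 := (enc_bounds (dec i)).1
  rw [enc_dec hi] at h1
  by_contra hc
  have : 2 ^ (K + 1) ≤ 2 ^ (dec i).length := Nat.pow_le_pow_right (by norm_num) (by omega)
  omega

/-- The rank labelling of an injective integer key is cheaper than the key. -/
theorem exists_rank (s : Finset ℕ) (κ : ℕ → ℤ) (hκ : Set.InjOn κ s) :
    ∃ L : ℕ → ℕ, Set.BijOn L s (Set.Icc 1 s.card) ∧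
      ∀ i ∈ s, ∀ j ∈ s, |(L i : ℤ) - L j| ≤ |κ i - κ j| := by
  classical
  let L : ℕ → ℕ := fun i => (s.filter (fun l => κ l ≤ κ i)).card
  have hstep : ∀ i ∈ s, ∀ j ∈ s, κ i ≤ κ j → L i ≤ L j ∧ (L j : ℤ) - L i ≤ κ j - κ i := by
    intro i _ j _ hij
    have hsub : s.filter (fun l => κ l ≤ κ i) ⊆ s.filter (fun l => κ l ≤ κ j) := by
      intro l hl
      simp only [Finset.mem_filter] at hl ⊢
      exact ⟨hl.1, hl.2.trans hij⟩
    have hle : L i ≤ L j := Finset.card_le_card hsub
    refine ⟨hle, ?_⟩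
    have h1 : (s.filter (fun l => κ l ≤ κ j) \ s.filter (fun l => κ l ≤ κ i)).card
        = L j - L i := by
      rw [Finset.card_sdiff_of_subset hsub]
    have h2 : ((s.filter (fun l => κ l ≤ κ j) \ s.filter (fun l => κ l ≤ κ i)).image κ)
        ⊆ Finset.Ioc (κ i) (κ j) := by
      intro y hy
      simp only [Finset.mem_image, Finset.mem_sdiff, Finset.mem_filter, not_and, not_le] at hy
      obtain ⟨l, ⟨⟨hl1, hl2⟩, hl3⟩, rfl⟩ := hy
      exact Finset.mem_Ioc.mpr ⟨hl3 hl1, hl2⟩
    have h3 := Finset.card_le_card h2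
    rw [Finset.card_image_of_injOn, h1, Int.card_Ioc] at h3
    · omega
    · intro a ha b hb hab
      simp only [Finset.coe_sdiff, Finset.coe_filter, Set.mem_diff, Set.mem_setOf_eq] at ha hb
      exact hκ ha.1.1 hb.1.1 hab
  have hlt : ∀ i ∈ s, ∀ j ∈ s, κ i < κ j → L i < L j := by
    intro i _ j hj hij
    apply Finset.card_lt_card
    rw [Finset.ssubset_iff_of_subset]
    · refine ⟨j, ?_, ?_⟩
      · simp [hj]
      · simp [hij]
    · intro l hl
      simp only [Finset.mem_filter] at hl ⊢
      exact ⟨hl.1, hl.2.trans hij.le⟩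
  have hmaps : ∀ i ∈ s, L i ∈ Set.Icc 1 s.card := by
    intro i hi
    refine ⟨?_, Finset.card_le_card (Finset.filter_subset _ _)⟩
    apply Finset.card_pos.mpr
    exact ⟨i, by simp [hi]⟩
  have hinj : Set.InjOn L s := by
    intro i hi j hj hij
    by_contra hne
    have hk : κ i ≠ κ j := fun h => hne (hκ hi hj h)
    rcases lt_or_gt_of_ne hk with h | h
    · have := hlt i hi j hj h
      omega
    · have := hlt j hj i hi h
      omega
  refine ⟨L, ⟨fun i hi => hmaps i hi, hinj, ?_⟩, ?_⟩
  · have h1 : s.image L = Finset.Icc 1 s.card := by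
      apply Finset.eq_of_subset_of_card_le
      · intro y hy
        obtain ⟨i, hi, rfl⟩ := Finset.mem_image.mp hy
        have := hmaps i hi
        exact Finset.mem_Icc.mpr ⟨this.1, this.2⟩
      · rw [Finset.card_image_of_injOn hinj]
        simp
    intro y hy
    have : y ∈ s.image L := by rw [h1]; exact Finset.mem_Icc.mpr hy
    obtain ⟨i, hi, rfl⟩ := Finset.mem_image.mp this
    exact ⟨i, hi, rfl⟩
  · intro i hi j hj
    rcases le_total (κ i) (κ j) with h | h
    · obtain ⟨h1, h2⟩ := hstep i hi j hj h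
      rw [abs_sub_comm, abs_sub_comm (κ i), abs_of_nonneg (by omega), abs_of_nonneg (by omega)]
      exact h2
    · obtain ⟨h1, h2⟩ := hstep j hj i hi h
      rw [abs_of_nonneg (by omega), abs_of_nonneg (by omega)]
      exact h2

end H38.BT
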