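import Mathlib

/-! Lower bound for the sum of squared edge lengths of a labelled complete binary tree
(problem MP_870659_co).  A vertex is a list of booleans (the head is the last turn), the root
is `[]`, the children of `l` are `true :: l` and `false :: l`. -/

noncomputable section

namespace H38.BT

/-- the labelling of the subtree at the child `b` of the root -/
def sub (b : Bool) (x : List Bool → ℝ) : List Bool → ℝ := fun s => x (s ++ [b])

/-- sum of the squared edge lengths of the tree of height `h` -/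
def E : ℕ → (List Bool → ℝ) → ℝ
  | 0, _ => 0
  | h + 1, x => (x [] - sub true x []) ^ 2 + (x [] - sub false x []) ^ 2
      + E h (sub true x) + E h (sub false x)

/-- mean over the leaves -/
def M : ℕ → (List Bool → ℝ) → ℝ
  | 0, x => x []
  | h + 1, x => (M h (sub true x) + M h (sub false x)) / 2

/-- mean over the leaves of `(x - c)^2` -/
def W (c : ℝ) : ℕ → (List Bool → ℝ) → ℝ
  | 0, x => (x [] - c) ^ 2
  | h + 1, x => (W c h (sub true x) + W c h (sub false x)) / 2

/-- variance over the leaves -/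
def V (h : ℕ) (x : List Bool → ℝ) : ℝ := W 0 h x - (M h x) ^ 2

/-- sum over the inner vertices of the squared Haar coefficients -/
def F : ℕ → (List Bool → ℝ) → ℝ
  | 0, _ => 0
  | h + 1, x => F h (sub true x) + F h (sub false x)
      + ((M h (sub true x) - M h (sub false x)) / 2) ^ 2

/-- sum over all subtrees (of height at least one) of the leaf variance -/
def Hs : ℕ → (List Bool → ℝ) → ℝ
  | 0, _ => 0
  | h + 1, x => V (h + 1) x + Hs h (sub true x) + Hs h (sub false x)

/-- sum over all vertices `u` of `(x u - m u)^2`, `m u` the leaf mean below `u` -/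
def D : ℕ → (List Bool → ℝ) → ℝ
  | 0, x => (x [] - M 0 x) ^ 2
  | h + 1, x => (x [] - M (h + 1) x) ^ 2 + D h (sub true x) + D h (sub false x)

/-- sum over all vertices `u` of `(m u - c)^2` -/
def B (c : ℝ) : ℕ → (List Bool → ℝ) → ℝ
  | 0, x => (M 0 x - c) ^ 2
  | h + 1, x => (M (h + 1) x - c) ^ 2 + B c h (sub true x) + B c h (sub false x)

/-- sum over all vertices `u` of `(x u - c)^2` -/
def A (c : ℝ) : ℕ → (List Bool → ℝ) → ℝ
  | 0, x => (x [] - c) ^ 2
  | h + 1, x => (x [] - c) ^ 2 + A c h (sub true x) + A c h (sub false x)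

theorem F_nonneg : ∀ (h : ℕ) (x : List Bool → ℝ), 0 ≤ F h x
  | 0, _ => le_refl _
  | h + 1, x => by
      have h1 := F_nonneg h (sub true x)
      have h2 := F_nonneg h (sub false x)
      simp only [F]
      positivity

theorem E_nonneg : ∀ (h : ℕ) (x : List Bool → ℝ), 0 ≤ E h x
  | 0, _ => le_refl _
  | h + 1, x => by
      have h1 := E_nonneg h (sub true x)
      have h2 := E_nonneg h (sub false x)
      simp only [E]
      positivity

theorem E_ge : ∀ (h : ℕ) (x : List Bool → ℝ), F h x + (x [] - M h x) ^ 2 ≤ E h x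
  | 0, x => by simp [F, M, E]
  | h + 1, x => by
      have h1 := E_ge h (sub true x)
      have h2 := E_ge h (sub false x)
      simp only [F, M, E]
      nlinarith [sq_nonneg ((x [] - sub true x []) - (sub true x [] - M h (sub true x))),
        sq_nonneg ((x [] - sub false x []) - (sub false x [] - M h (sub false x)))]

theorem W_eq (c : ℝ) : ∀ (h : ℕ) (x : List Bool → ℝ), W c h x = V h x + (M h x - c) ^ 2
  | 0, x => by simp [W, V, M]
  | h + 1, x => by
      have h1 := W_eq c h (sub true x)
      have h2 := W_eq c h (sub false x)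
      have h3 : W 0 h (sub true x) = V h (sub true x) + (M h (sub true x)) ^ 2 := by
        simp [V]
      have h4 : W 0 h (sub false x) = V h (sub false x) + (M h (sub false x)) ^ 2 := by
        simp [V]
      have h5 : W c (h + 1) x = (W c h (sub true x) + W c h (sub false x)) / 2 := rfl
      have h6 : W 0 (h + 1) x = (W 0 h (sub true x) + W 0 h (sub false x)) / 2 := rfl
      have h7 : M (h + 1) x = (M h (sub true x) + M h (sub false x)) / 2 := rfl
      have h8 : V (h + 1) x = W 0 (h + 1) x - (M (h + 1) x) ^ 2 := rfl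
      rw [h5, h1, h2, h8, h6, h3, h4, h7]
      ring

theorem V_zero (x : List Bool → ℝ) : V 0 x = 0 := by simp [V, W, M]

theorem V_succ (h : ℕ) (x : List Bool → ℝ) :
    V (h + 1) x = (V h (sub true x) + V h (sub false x)) / 2
      + ((M h (sub true x) - M h (sub false x)) / 2) ^ 2 := by
  simp only [V, W, M]
  ring

theorem V_nonneg : ∀ (h : ℕ) (x : List Bool → ℝ), 0 ≤ V h x
  | 0, x => by rw [V_zero]
  | h + 1, x => by
      have h1 := V_nonneg h (sub true x)
      have h2 := V_nonneg h (sub false x)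
      rw [V_succ]
      positivity

theorem F_eq : ∀ (h : ℕ) (x : List Bool → ℝ), F h x = V h x / 2 + Hs h x / 2
  | 0, x => by simp [F, V_zero, Hs]
  | h + 1, x => by
      rw [F, F_eq h, F_eq h, Hs, V_succ]
      ring

theorem E_sub_le (h : ℕ) (x : List Bool → ℝ) :
    E h (sub true x) + E h (sub false x) ≤ E (h + 1) x := by
  simp only [E]
  nlinarith [sq_nonneg (x [] - sub true x []), sq_nonneg (x [] - sub false x [])]

theorem D_le : ∀ (h : ℕ) (x : List Bool → ℝ), D h x ≤ (h + 1) * E h x
  | 0, x => by simp [D, M, E]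
  | h + 1, x => by
      have h1 := D_le h (sub true x)
      have h2 := D_le h (sub false x)
      have h3 := E_sub_le h x
      have h4 := E_ge (h + 1) x
      have h5 := F_nonneg (h + 1) x
      have h6 : ((h : ℝ) + 1) * (E h (sub true x) + E h (sub false x))
          ≤ ((h : ℝ) + 1) * E (h + 1) x := mul_le_mul_of_nonneg_left h3 (by positivity)
      rw [D]
      push_cast
      nlinarith

theorem B_le (c : ℝ) : ∀ (h : ℕ) (x : List Bool → ℝ), B c h x ≤ (2 ^ (h + 1) - 1) * W c h x
  | 0, x => by simp [B, M, W]; nlinarith [sq_nonneg (x [] - c)]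
  | h + 1, x => by
      have h1 := B_le c h (sub true x)
      have h2 := B_le c h (sub false x)
      have h3 := W_eq c (h + 1) x
      have h4 := V_nonneg (h + 1) x
      have h5 : W c h (sub true x) + W c h (sub false x) = 2 * W c (h + 1) x := by
        rw [W]; ring
      have h6 : (2 : ℝ) ^ (h + 1 + 1) = 2 * 2 ^ (h + 1) := by ring
      have h7 : (2 ^ (h + 1) - 1) * W c h (sub true x) + (2 ^ (h + 1) - 1) * W c h (sub false x)
          = (2 ^ (h + 1) - 1) * (2 * W c (h + 1) x) := by rw [← h5]; ring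
      rw [B, h6]
      nlinarith

theorem A_le (c d : ℝ) (hd : 0 < d) : ∀ (h : ℕ) (x : List Bool → ℝ),
    A c h x ≤ (1 + d) * B c h x + (1 + 1 / d) * D h x := by
  have key : ∀ a b : ℝ, (a + b) ^ 2 ≤ (1 + d) * b ^ 2 + (1 + 1 / d) * a ^ 2 := by
    intro a b
    have h1 : (1 + d) * b ^ 2 + (1 + 1 / d) * a ^ 2 - (a + b) ^ 2
        = (d * b - a) ^ 2 / d := by
      field_simp
      ring
    have h2 : 0 ≤ (d * b - a) ^ 2 / d := by positivity
    linarith
  intro h
  induction h with
  | zero =>
      intro x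
      have := key (x [] - M 0 x) (M 0 x - c)
      rw [show x [] - M 0 x + (M 0 x - c) = x [] - c by ring] at this
      simpa [A, B, D] using this
  | succ h ih =>
      intro x
      have h1 := ih (sub true x)
      have h2 := ih (sub false x)
      have h3 := key (x [] - M (h + 1) x) (M (h + 1) x - c)
      rw [show x [] - M (h + 1) x + (M (h + 1) x - c) = x [] - c by ring] at h3
      rw [A, B, D]
      linarith

/-- distinct integers: sum of squares about any centre -/
theorem int_sumsq (c : ℝ) : ∀ (n : ℕ) (s : Finset ℤ), s.card = n →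
    (n : ℝ) * (n ^ 2 - 1) / 12 ≤ ∑ y ∈ s, ((y : ℝ) - c) ^ 2 := by
  intro n
  induction n using Nat.strong_induction_on with
  | _ n ih =>
    intro s hs
    rcases Nat.lt_or_ge n 2 with hn | hn
    · have : (n : ℝ) * (n ^ 2 - 1) / 12 ≤ 0 := by
        interval_cases n <;> norm_num
      exact this.trans (Finset.sum_nonneg fun _ _ => sq_nonneg _)
    · have hne : s.Nonempty := Finset.card_pos.mp (by omega)
      set a := s.min' hne with ha
      set b := s.max' hne with hb
      have ham : a ∈ s := s.min'_mem hne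
      have hbm : b ∈ s := s.max'_mem hne
      have hsub : s ⊆ Finset.Icc a b := fun y hy =>
        Finset.mem_Icc.mpr ⟨s.min'_le y hy, s.le_max' y hy⟩
      have hcard := Finset.card_le_card hsub
      rw [hs, Int.card_Icc] at hcard
      have hab : (n : ℤ) ≤ b - a + 1 := by omega
      have hne2 : a ≠ b := by
        intro h
        rw [h] at hab
        omega
      have ha2 : a ∈ s.erase b := Finset.mem_erase.mpr ⟨hne2, ham⟩
      have hc : ((s.erase b).erase a).card = n - 2 := by
        rw [Finset.card_erase_of_mem ha2, Finset.card_erase_of_mem hbm, hs]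
        omega
      have h1 := ih (n - 2) (by omega) _ hc
      have h2 : ∑ y ∈ s, ((y : ℝ) - c) ^ 2
          = ((b : ℝ) - c) ^ 2 + (((a : ℝ) - c) ^ 2
            + ∑ y ∈ (s.erase b).erase a, ((y : ℝ) - c) ^ 2) := by
        rw [Finset.add_sum_erase _ (fun y : ℤ => ((y : ℝ) - c) ^ 2) ha2,
          Finset.add_sum_erase _ (fun y : ℤ => ((y : ℝ) - c) ^ 2) hbm]
      rw [h2]
      have h3 : ((n - 2 : ℕ) : ℝ) = (n : ℝ) - 2 := by
        rw [Nat.cast_sub hn]
        norm_num
      rw [h3] at h1
      have h4 : (n : ℝ) ≤ (b : ℝ) - a + 1 := by exact_mod_cast hab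
      have h5 : (2 : ℝ) ≤ n := by exact_mod_cast hn
      nlinarith [sq_nonneg ((b : ℝ) - c + (a - c)),
        mul_nonneg (by linarith : (0 : ℝ) ≤ (b : ℝ) - a + 1 - n)
          (by linarith : (0 : ℝ) ≤ (b : ℝ) - a + (n - 1))]

/-- the list of all vertices of the tree of height `h` -/
def vl : ℕ → List (List Bool)
  | 0 => [[]]
  | h + 1 => [] :: ((vl h).map (fun s => s ++ [true]) ++ (vl h).map (fun s => s ++ [false]))

theorem mem_vl : ∀ (h : ℕ) (s : List Bool), s ∈ vl h → s.length ≤ h
  | 0, s, hs => by simp [vl] at hs; simp [hs]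
  | h + 1, s, hs => by
      simp only [vl, List.mem_cons, List.mem_append, List.mem_map] at hs
      rcases hs with rfl | ⟨t, ht, rfl⟩ | ⟨t, ht, rfl⟩
      · simp
      · have := mem_vl h t ht
        simp; omega
      · have := mem_vl h t ht
        simp; omega

theorem vl_nodup : ∀ h : ℕ, (vl h).Nodup
  | 0 => by simp [vl]
  | h + 1 => by
      have ih := vl_nodup h
      rw [vl, List.nodup_cons]
      constructor
      · simp
      · rw [List.nodup_append']
        refine ⟨ih.map (fun a b hab => by simpa using hab),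
          ih.map (fun a b hab => by simpa using hab), ?_⟩
        intro s h1 h2
        simp only [List.mem_map] at h1 h2
        obtain ⟨t, _, rfl⟩ := h1
        obtain ⟨t', _, h2⟩ := h2
        have := congrArg List.getLast? h2
        simp at this

theorem vl_length : ∀ h : ℕ, (vl h).length = 2 ^ (h + 1) - 1
  | 0 => by simp [vl]
  | h + 1 => by
      have := vl_length h
      simp only [vl, List.length_cons, List.length_append, List.length_map, this]
      have : 1 ≤ 2 ^ (h + 1) := Nat.one_le_two_pow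
      rw [pow_succ 2 (h + 1)]
      omega

theorem A_eq (c : ℝ) : ∀ (h : ℕ) (x : List Bool → ℝ),
    A c h x = ((vl h).map (fun s => (x s - c) ^ 2)).sum
  | 0, x => by simp [A, vl]
  | h + 1, x => by
      rw [A, A_eq c h, A_eq c h, vl]
      simp only [List.map_cons, List.sum_cons, List.map_append, List.sum_append, List.map_map]
      rw [add_assoc]
      rfl

/-- `x` takes distinct integer values on the tree of height `h` -/
def Dist (h : ℕ) (x : List Bool → ℝ) : Prop :=
  ∃ f : List Bool → ℤ, (∀ s, x s = f s) ∧ Set.InjOn f {s | s.length ≤ h}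

theorem Dist.sub {h : ℕ} {x : List Bool → ℝ} (H : Dist (h + 1) x) (b : Bool) :
    Dist h (BT.sub b x) := by
  obtain ⟨f, hf, hi⟩ := H
  refine ⟨fun s => f (s ++ [b]), fun s => hf _, ?_⟩
  intro s hs t ht hst
  have hs' : s.length ≤ h := hs
  have ht' : t.length ≤ h := ht
  have h1 : (s ++ [b]).length ≤ h + 1 := by simp; omega
  have h2 : (t ++ [b]).length ≤ h + 1 := by simp; omega
  have := hi h1 h2 hst
  simpa using this

theorem A_ge (c : ℝ) (h : ℕ) (x : List Bool → ℝ) (H : Dist h x) :
    ((2 : ℝ) ^ (h + 1) - 1) * ((2 ^ (h + 1) - 1) ^ 2 - 1) / 12 ≤ A c h x := by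
  obtain ⟨f, hf, hi⟩ := H
  have hnd : ((vl h).map f).Nodup := by
    refine List.Nodup.map_on ?_ (vl_nodup h)
    intro s hs t ht hst
    exact hi (mem_vl h s hs) (mem_vl h t ht) hst
  have h1 : A c h x = ∑ y ∈ ((vl h).map f).toFinset, ((y : ℝ) - c) ^ 2 := by
    rw [A_eq, List.sum_toFinset _ hnd, List.map_map]
    congr 1
    apply List.map_congr_left
    intro s _
    simp [hf s]
  have h2 : ((vl h).map f).toFinset.card = 2 ^ (h + 1) - 1 := by
    rw [List.toFinset_card_of_nodup hnd, List.length_map, vl_length]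
  have h3 := int_sumsq c _ _ h2
  rw [h1]
  have h4 : ((2 ^ (h + 1) - 1 : ℕ) : ℝ) = (2 : ℝ) ^ (h + 1) - 1 := by
    rw [Nat.cast_sub Nat.one_le_two_pow]
    push_cast
    ring
  rw [h4] at h3
  exact h3

/-- lower bound for the leaf variance of a tree of height `h` with distinct integer labels -/
theorem V_ge (H K h : ℕ) (hK : h ≤ K) (x : List Bool → ℝ) (hx : Dist h x) :
    ((4 : ℝ) ^ h - 2 ^ h * (2 ^ H + 1)) / 3 - ((K : ℝ) + 1) / 2 ^ H * E h x ≤ V h x := by
  have hE := E_nonneg h x
  have hV := V_nonneg h x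
  have h4 : (4 : ℝ) ^ h = (2 ^ h) ^ 2 := by
    rw [← pow_mul, mul_comm, pow_mul]; norm_num
  rw [h4]
  have hH : (1 : ℝ) ≤ 2 ^ H := one_le_pow₀ (by norm_num)
  have ha : (1 : ℝ) ≤ 2 ^ h := one_le_pow₀ (by norm_num)
  have hnn : 0 ≤ ((K : ℝ) + 1) / 2 ^ H * E h x := by positivity
  rcases Nat.lt_or_ge h H with hlt | hge
  · have h1 : (2 : ℝ) ^ h ≤ 2 ^ H := pow_le_pow_right₀ (by norm_num) hlt.le
    have h2 : ((2 : ℝ) ^ h) ^ 2 - 2 ^ h * (2 ^ H + 1) ≤ 0 := by nlinarith
    linarith
  · have h1 : (2 : ℝ) ^ H ≤ 2 ^ h := pow_le_pow_right₀ (by norm_num) hge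
    set a : ℝ := 2 ^ h with hadef
    set b : ℝ := 2 ^ H with hbdef
    set d : ℝ := b / a with hd
    have hapos : 0 < a := by linarith
    have hbpos : 0 < b := by linarith
    have hdpos : 0 < d := by positivity
    have hd1 : d ≤ 1 := by rw [hd, div_le_one hapos]; exact h1
    have hda : d * a = b := by rw [hd]; field_simp
    have e1 := A_ge (M h x) h x hx
    have e2 := A_le (M h x) d hdpos h x
    have e3 := B_le (M h x) h x
    have e4 := D_le h x
    have e5 := W_eq (M h x) h x
    rw [sub_self] at e5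
    have hN : (2 : ℝ) ^ (h + 1) - 1 = 2 * a - 1 := by rw [hadef]; ring
    rw [hN] at e1 e3
    rw [e5] at e3
    have hh : (h : ℝ) + 1 ≤ K + 1 := by
      have : (h : ℝ) ≤ K := by exact_mod_cast hK
      linarith
    have e6 : D h x ≤ ((K : ℝ) + 1) * E h x :=
      e4.trans (mul_le_mul_of_nonneg_right hh hE)
    set y : ℝ := V h x + ((K : ℝ) + 1) / b * E h x with hy
    have hy0 : 0 ≤ y := by positivity
    have e7 : (1 + 1 / d) * (((K : ℝ) + 1) * E h x)
        ≤ (1 + d) * (2 * a - 1) * (((K : ℝ) + 1) / b * E h x) := by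
      have : (1 + 1 / d) = (1 + d) * (a / b) := by
        rw [hd]; field_simp
        ring
      rw [this]
      have h9 : (1 + d) * (a / b) * (((K : ℝ) + 1) * E h x)
          = (1 + d) * a * (((K : ℝ) + 1) / b * E h x) := by
        field_simp
      rw [h9]
      apply mul_le_mul_of_nonneg_right _ (by positivity)
      apply mul_le_mul_of_nonneg_left (by linarith) (by positivity)
    have e8 : (2 * a - 1) * ((2 * a - 1) ^ 2 - 1) / 12 ≤ (2 * a - 1) * ((1 + d) * y) := by
      have h10 : (1 + 1 / d) * D h x ≤ (1 + 1 / d) * (((K : ℝ) + 1) * E h x) :=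
        mul_le_mul_of_nonneg_left e6 (by positivity)
      have h11 : (1 + d) * B (M h x) h x ≤ (1 + d) * ((2 * a - 1) * (V h x + 0 ^ 2)) :=
        mul_le_mul_of_nonneg_left e3 (by positivity)
      have h12 : (2 * a - 1) * ((1 + d) * y)
          = (1 + d) * ((2 * a - 1) * (V h x + 0 ^ 2))
            + (1 + d) * (2 * a - 1) * (((K : ℝ) + 1) / b * E h x) := by
        rw [hy]; ring
      rw [h12]
      linarith
    have e9 : (a ^ 2 - a) / 3 ≤ (1 + d) * y := by
      have h13 : (2 * a - 1) * ((a ^ 2 - a) / 3) ≤ (2 * a - 1) * ((1 + d) * y) := by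
        have : (2 * a - 1) * ((2 * a - 1) ^ 2 - 1) / 12 = (2 * a - 1) * ((a ^ 2 - a) / 3) := by
          ring
        linarith
      exact le_of_mul_le_mul_left h13 (by linarith)
    have e10 : (1 - d) * ((a ^ 2 - a) / 3) ≤ y := by
      have h14 := mul_le_mul_of_nonneg_left e9 (by linarith : 0 ≤ 1 - d)
      have h15 : (1 - d) * ((1 + d) * y) = y - d ^ 2 * y := by ring
      have h16 : 0 ≤ d ^ 2 * y := by positivity
      linarith
    have e11 : (1 - d) * ((a ^ 2 - a) / 3) = (a ^ 2 - a - b * a + b) / 3 := by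
      have : (1 - d) * ((a ^ 2 - a) / 3) = (a ^ 2 - a - (d * a) * a + d * a) / 3 := by ring
      rw [this, hda]
    rw [e11] at e10
    nlinarith

theorem Hs_ge (H K : ℕ) : ∀ h : ℕ, h ≤ K → ∀ x : List Bool → ℝ, Dist h x →
    ((2 : ℝ) ^ h * (2 ^ (h + 1) - 2) - h * 2 ^ h * (2 ^ H + 1)) / 3
      - h * (((K : ℝ) + 1) / 2 ^ H) * E h x ≤ Hs h x
  | 0, _, x, _ => by simp [Hs]
  | h + 1, hK, x, hx => by
      have h1 := Hs_ge H K h (by omega) (sub true x) (hx.sub true)
      have h2 := Hs_ge H K h (by omega) (sub false x) (hx.sub false)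
      have h3 := V_ge H K (h + 1) hK x hx
      have h4 := E_sub_le h x
      set g : ℝ := ((K : ℝ) + 1) / 2 ^ H with hg
      have hg0 : 0 ≤ g := by positivity
      have h5 : (h : ℝ) * g * (E h (sub true x) + E h (sub false x))
          ≤ (h : ℝ) * g * E (h + 1) x := mul_le_mul_of_nonneg_left h4 (by positivity)
      have h6 : (4 : ℝ) ^ (h + 1) = 4 * (2 ^ h) ^ 2 := by
        rw [← pow_mul, mul_comm h 2, pow_mul, pow_succ]; norm_num
        ring
      rw [h6] at h3
      have h7 : (2 : ℝ) ^ (h + 1 + 1) = 4 * 2 ^ h := by ring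
      have h8 : (2 : ℝ) ^ (h + 1) = 2 * 2 ^ h := by ring
      rw [h8] at h1 h2 h3
      rw [Hs, h7, h8]
      push_cast
      nlinarith

/-- LOWER BOUND -/
theorem lower_main (H K : ℕ) (x : List Bool → ℝ) (hx : Dist K x) :
    (4 : ℝ) ^ K / 2 - 2 ^ K * (2 + ((K : ℝ) + 1) * (2 ^ H + 1)) / 6
      ≤ (1 + ((K : ℝ) + 1) ^ 2 / (2 * 2 ^ H)) * E K x := by
  have h1 := Hs_ge H K K le_rfl x hx
  have h2 := V_ge H K K le_rfl x hx
  have h3 := E_ge K x
  have h4 := F_eq K x
  have h5 : (4 : ℝ) ^ K = (2 ^ K) ^ 2 := by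
    rw [← pow_mul, mul_comm, pow_mul]; norm_num
  have h6 : (2 : ℝ) ^ (K + 1) = 2 * 2 ^ K := by ring
  rw [h5] at h2 ⊢
  rw [h6] at h1
  have h7 : ((K : ℝ) + 1) ^ 2 / (2 * 2 ^ H) = ((K : ℝ) + 1) * (((K : ℝ) + 1) / 2 ^ H) / 2 := by
    field_simp
  rw [h7]
  set g : ℝ := ((K : ℝ) + 1) / 2 ^ H with hg
  nlinarith [sq_nonneg (x [] - M K x)]

end H38.BT
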