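import Pool.Agent.H38.BT.Upper

/-!
# MP_870659_co: the minimum squared edge-length of a labelling of the complete binary tree

`T_k` is taken in its heap numbering: the vertices are `1, …, 2^k - 1`, the root is `1`, the
children of a vertex `i < 2^(k-1)` are `2 i` and `2 i + 1`; so the edges are the pairs
`{i, i / 2}` for `2 ≤ i ≤ 2^k - 1`.
-/

namespace Pool.Agent.Results.MP_870659_co.SquareAsymptotics

/-- A labelling of the `k`-level complete binary tree. -/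
def IsLabeling (k : ℕ) (L : ℕ → ℕ) : Prop :=
  Set.BijOn L (Set.Icc 1 (2 ^ k - 1)) (Set.Icc 1 (2 ^ k - 1))

/-- The sum over all edges of the squared difference of the labels. -/
def cost (k : ℕ) (L : ℕ → ℕ) : ℕ :=
  ∑ i ∈ Finset.Icc 2 (2 ^ k - 1), ((L i : ℤ) - L (i / 2)).natAbs ^ 2

/-- The minimum of the cost over all labellings. -/
noncomputable def Q (k : ℕ) : ℕ := sInf {c | ∃ L, IsLabeling k L ∧ cost k L = c}

open H38.BT

theorem cost_real (K : ℕ) (L : ℕ → ℕ) :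
    (cost (K + 1) L : ℝ) = E K (fun l => (L (enc l) : ℝ)) := by
  rw [← cost_eq K (fun i => (L i : ℝ)), cost]
  push_cast
  apply Finset.sum_congr rfl
  intro i _
  rw [← sq_abs ((L i : ℝ) - L (i / 2))]
  congr 1
  have : (((L i : ℤ) - L (i / 2)).natAbs : ℝ) = ((|(L i : ℤ) - L (i / 2)| : ℤ) : ℝ) := by
    rw [Int.abs_eq_natAbs]
    simp
  rw [this]
  push_cast
  rfl

theorem idLabeling (k : ℕ) : IsLabeling k id := Set.bijOn_id _

theorem Q_le {k : ℕ} {L : ℕ → ℕ} (h : IsLabeling k L) : Q k ≤ cost k L :=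
  Nat.sInf_le ⟨L, h, rfl⟩

theorem exists_Q (k : ℕ) : ∃ L, IsLabeling k L ∧ cost k L = Q k :=
  Nat.sInf_mem (s := {c | ∃ L, IsLabeling k L ∧ cost k L = c}) ⟨_, id, idLabeling k, rfl⟩

theorem dist_of_labeling {K : ℕ} {L : ℕ → ℕ} (h : IsLabeling (K + 1) L) :
    Dist K (fun l => (L (enc l) : ℝ)) := by
  refine ⟨fun l => (L (enc l) : ℤ), fun l => by push_cast; rfl, ?_⟩
  intro l hl l' hl' hh
  have hm : ∀ m : List Bool, m.length ≤ K → enc m ∈ Set.Icc 1 (2 ^ (K + 1) - 1) := by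
    intro m hm
    have h1 := enc_bounds m
    have h2 : 1 ≤ 2 ^ m.length := Nat.one_le_two_pow
    have h3 : 2 ^ (m.length + 1) ≤ 2 ^ (K + 1) := Nat.pow_le_pow_right (by norm_num) (by omega)
    exact ⟨by omega, by omega⟩
  have h4 : L (enc l) = L (enc l') := by
    have h5 : ((L (enc l) : ℕ) : ℤ) = L (enc l') := hh
    exact_mod_cast h5
  exact enc_inj (h.injOn (hm l hl) (hm l' hl') h4)

/-- numerical facts about `s = 2^(k/2)` -/
theorem s_facts (K : ℕ) : ∃ s : ℝ, 0 < s ∧ s ^ 2 = 2 ^ (K + 1) ∧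
    (2 : ℝ) ^ (3 * ((K + 1 : ℕ) : ℝ) / 2) = s ^ 3 := by
  refine ⟨(2 : ℝ) ^ (((K + 1 : ℕ) : ℝ) / 2), by positivity, ?_, ?_⟩
  · rw [← Real.rpow_natCast, ← Real.rpow_mul (by norm_num)]
    rw [show ((K + 1 : ℕ) : ℝ) / 2 * ((2 : ℕ) : ℝ) = ((K + 1 : ℕ) : ℝ) by push_cast; ring,
      Real.rpow_natCast]
  · rw [← Real.rpow_natCast, ← Real.rpow_mul (by norm_num)]
    congr 1
    push_cast
    ring

theorem lower (K : ℕ) (hK : 1 ≤ K) :
    (4 : ℝ) ^ (K + 1) / 8 - 15 * ((K + 1 : ℕ) : ℝ) ^ 2 * (2 : ℝ) ^ (3 * ((K + 1 : ℕ) : ℝ) / 2)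
      ≤ Q (K + 1) := by
  obtain ⟨L, hL, hQ⟩ := exists_Q (K + 1)
  rw [← hQ, cost_real]
  obtain ⟨s, hs0, hs2, hs3⟩ := s_facts K
  rw [hs3]
  have h1 := lower_main ((K + 1) / 2) K _ (dist_of_labeling hL)
  set e : ℝ := E K (fun l => (L (enc l) : ℝ))
  set u : ℝ := 2 ^ ((K + 1) / 2) with hu
  have hu0 : 0 < u := by positivity
  have hus : u ≤ s := by
    apply le_of_sq_le_sq _ hs0.le
    rw [hs2, hu, ← pow_mul]
    exact pow_le_pow_right₀ (by norm_num) (by omega)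
  have hsu : s ≤ 2 * u := by
    apply le_of_sq_le_sq _ (by positivity)
    rw [hs2, mul_pow, hu, ← pow_mul, show (2 : ℝ) ^ 2 * 2 ^ ((K + 1) / 2 * 2)
      = 2 ^ ((K + 1) / 2 * 2 + 2) by rw [pow_add]; ring]
    exact pow_le_pow_right₀ (by norm_num) (by omega)
  have hK2 : (2 : ℝ) ^ K = s ^ 2 / 2 := by rw [hs2, pow_succ]; ring
  have hK4 : (4 : ℝ) ^ K = s ^ 4 / 4 := by
    rw [show s ^ 4 = (s ^ 2) ^ 2 by ring, hs2, ← pow_mul, mul_comm, pow_mul, pow_succ]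
    norm_num
  have hK4' : (4 : ℝ) ^ (K + 1) = s ^ 4 := by rw [pow_succ, hK4]; ring
  rw [hK2, hK4] at h1
  rw [hK4']
  set k : ℝ := ((K + 1 : ℕ) : ℝ) with hk
  have hkK : (K : ℝ) + 1 = k := by rw [hk]; push_cast; ring
  rw [hkK] at h1
  have hk2 : 2 ≤ k := by
    have : (1 : ℝ) ≤ K := by exact_mod_cast hK
    linarith
  have hs1 : 2 ≤ s := by
    apply le_of_sq_le_sq _ hs0.le
    rw [hs2]
    calc (2 : ℝ) ^ 2 ≤ 2 ^ (K + 1) := pow_le_pow_right₀ (by norm_num) (by omega)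
      _ = _ := rfl
  rcases le_or_gt (s ^ 4 / 8) e with h | h
  · have : 0 ≤ 15 * k ^ 2 * s ^ 3 := by positivity
    linarith
  · have he0 : 0 ≤ e := E_nonneg _ _
    have a1 : k ^ 2 / (2 * u) * e ≤ k ^ 2 * s ^ 3 / 8 := by
      rw [div_mul_eq_mul_div, div_le_div_iff₀ (by positivity) (by norm_num)]
      have b1 : k ^ 2 * e ≤ k ^ 2 * (s ^ 4 / 8) :=
        mul_le_mul_of_nonneg_left h.le (by positivity)
      have b2 : k ^ 2 * s ^ 3 * s ≤ k ^ 2 * s ^ 3 * (2 * u) :=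
        mul_le_mul_of_nonneg_left hsu (by positivity)
      nlinarith
    have a2 : s ^ 2 / 2 * (2 + k * (u + 1)) / 6 ≤ k ^ 2 * s ^ 3 := by
      have b1 : k * (u + 1) ≤ k * (s + 1) := mul_le_mul_of_nonneg_left (by linarith) (by linarith)
      have b2 : 2 + k * (s + 1) ≤ 12 * (k ^ 2 * s) := by
        have c1 : 0 ≤ k * s * (k - 2) := mul_nonneg (by positivity) (by linarith)
        have c2 : 0 ≤ k * (s - 2) := mul_nonneg (by positivity) (by linarith)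
        have c3 : 0 ≤ k ^ 2 * s := by positivity
        nlinarith
      have b3 : s ^ 2 / 2 * (2 + k * (u + 1)) / 6 ≤ s ^ 2 / 2 * (12 * (k ^ 2 * s)) / 6 := by
        have : s ^ 2 / 2 * (2 + k * (u + 1)) ≤ s ^ 2 / 2 * (12 * (k ^ 2 * s)) :=
          mul_le_mul_of_nonneg_left (by linarith) (by positivity)
        linarith
      calc _ ≤ _ := b3
        _ = k ^ 2 * s ^ 3 := by ring
    have a3 : 0 ≤ k ^ 2 * s ^ 3 := by positivity
    have a4 : (1 + k ^ 2 / (2 * u)) * e = e + k ^ 2 / (2 * u) * e := by ring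
    rw [a4] at h1
    linarith

theorem upper_small (k : ℕ) : (Q k : ℝ) ≤ 8 ^ k := by
  have h1 : cost k id ≤ 8 ^ k := by
    rw [cost]
    calc ∑ i ∈ Finset.Icc 2 (2 ^ k - 1), (((id i : ℕ) : ℤ) - (id (i / 2) : ℕ)).natAbs ^ 2
        ≤ ∑ i ∈ Finset.Icc 2 (2 ^ k - 1), (2 ^ k) ^ 2 := by
          apply Finset.sum_le_sum
          intro i hi
          have hi2 := (Finset.mem_Icc.mp hi).2
          apply Nat.pow_le_pow_left
          simp only [id]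
          generalize 2 ^ k = n at *
          omega
      _ ≤ 8 ^ k := by
          rw [Finset.sum_const, Nat.card_Icc, smul_eq_mul]
          calc (2 ^ k - 1 + 1 - 2) * (2 ^ k) ^ 2 ≤ 2 ^ k * (2 ^ k) ^ 2 :=
                Nat.mul_le_mul_right _ (by generalize 2 ^ k = n; omega)
            _ = 8 ^ k := by
                rw [← pow_mul, ← pow_add, show k + k * 2 = 3 * k by ring, pow_mul]
                norm_num
  exact_mod_cast (Q_le (idLabeling k)).trans h1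

theorem upper_key (P q : ℕ) : (Q (P + q + 1) : ℝ) ≤ E (P + q) (kr P q) := by
  set K := P + q with hK
  have hinj : Set.InjOn (fun i => key P q (dec i)) (Finset.Icc 1 (2 ^ (K + 1) - 1) : Finset ℕ) := by
    intro i hi j hj h
    have hi' := Finset.mem_Icc.mp (Finset.mem_coe.mp hi)
    have hj' := Finset.mem_Icc.mp (Finset.mem_coe.mp hj)
    have hp : 1 ≤ 2 ^ (K + 1) := Nat.one_le_two_pow
    have h1 : (dec i).length ≤ P + q := by
      rw [← hK]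
      exact length_dec hi'.1 (by omega)
    have h2 : (dec j).length ≤ P + q := by
      rw [← hK]
      exact length_dec hj'.1 (by omega)
    have := key_inj P q h1 h2 h
    rw [← enc_dec hi'.1, this, enc_dec hj'.1]
  obtain ⟨L, hL1, hL2⟩ := exists_rank _ _ hinj
  have hcard : (Finset.Icc 1 (2 ^ (K + 1) - 1)).card = 2 ^ (K + 1) - 1 := by simp
  rw [hcard, Finset.coe_Icc] at hL1
  have h3 : (Q (K + 1) : ℝ) ≤ cost (K + 1) L := by exact_mod_cast Q_le hL1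
  refine h3.trans ?_
  have h4 : E K (kr P q) = E K (fun l => kr P q (dec (enc l))) := by
    congr 1
    funext l
    rw [dec_enc]
  rw [h4, ← cost_eq K (fun i => kr P q (dec i)), cost]
  push_cast
  apply Finset.sum_le_sum
  intro i hi
  have hi' := Finset.mem_Icc.mp hi
  have h5 := hL2 i (Finset.mem_Icc.mpr ⟨by omega, hi'.2⟩) (i / 2)
    (Finset.mem_Icc.mpr ⟨by omega, by omega⟩)
  have h6 : (((L i : ℤ) - L (i / 2)).natAbs : ℝ) = |((L i : ℤ) : ℝ) - (L (i / 2) : ℤ)| := by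
    have : (((L i : ℤ) - L (i / 2)).natAbs : ℝ) = ((|(L i : ℤ) - L (i / 2)| : ℤ) : ℝ) := by
      rw [Int.abs_eq_natAbs]
      simp
    rw [this]
    push_cast
    rfl
  rw [h6, ← sq_abs (kr P q (dec i) - kr P q (dec (i / 2)))]
  have h7 : |((L i : ℤ) : ℝ) - (L (i / 2) : ℤ)| ≤ |kr P q (dec i) - kr P q (dec (i / 2))| := by
    rw [kr, kr]
    exact_mod_cast h5
  exact pow_le_pow_left₀ (abs_nonneg _) h7 2

theorem RR_le : ∀ P : ℕ, 3 ≤ P → P * (2 * P + 1) ≤ 4 * 2 ^ P := by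
  intro P hP
  induction P, hP using Nat.le_induction with
  | base => norm_num
  | succ P hP ih =>
      have : 2 ^ (P + 1) = 2 * 2 ^ P := by ring
      rw [this]
      nlinarith

/-- the real inequality behind the upper bound -/
theorem real_bound {R v p P k s : ℝ} (hR1 : R ≤ 4 * v) (hRP : R = P * (2 * P + 1))
    (hp0 : 0 < p) (hv0 : 0 < v) (hpv : p * v = s ^ 2 / 2) (hps : p ≤ s) (hvs : v ≤ s)
    (hP3 : 3 ≤ P) (hPk : 2 * P ≤ k - 1) (hs1 : 2 ≤ s) :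
    (R + 2 * v) ^ 2 * (8 * (p / 8) ^ 2) + 4 * (R + 2 * v) * ((P - 2) * (p / 8))
      + p / 2 * (8 * P ^ 2 + 8 * P + 4) + p * ((R + 2 * v) * (P + 1)) ^ 2 + p * v ^ 2
      ≤ s ^ 4 / 8 + 15 * k ^ 2 * s ^ 3 := by
  have hs0 : 0 < s := by linarith
  have hk7 : 7 ≤ k := by linarith
  have hR0 : 0 ≤ R := by rw [hRP]; positivity
  have g0 : (R + 2 * v) ^ 2 * (8 * (p / 8) ^ 2)
      = s ^ 4 / 8 + (4 * v * R + R ^ 2) * p ^ 2 / 8 := by
    have : s ^ 4 = 4 * (p * v) ^ 2 := by rw [hpv]; ring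
    rw [this]
    ring
  have hPP : P ^ 2 ≤ (k ^ 2) / 4 := by
    have c1 : P ≤ k / 2 := by linarith
    have c2 : P ^ 2 ≤ (k / 2) ^ 2 := pow_le_pow_left₀ (by linarith) c1 2
    calc P ^ 2 ≤ (k / 2) ^ 2 := c2
      _ = _ := by ring
  have gR : R ≤ 3 * P ^ 2 := by rw [hRP]; nlinarith
  have hX : 0 < k ^ 2 * s ^ 3 := by positivity
  have g1 : (4 * v * R + R ^ 2) * p ^ 2 / 8 ≤ k ^ 2 * s ^ 3 := by
    have b1 : R ^ 2 ≤ 4 * v * R := by
      have := mul_le_mul_of_nonneg_right hR1 hR0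
      linarith [this, sq R]
    have b2 : (4 * v * R + R ^ 2) * p ^ 2 ≤ (8 * v * R) * p ^ 2 :=
      mul_le_mul_of_nonneg_right (by linarith) (by positivity)
    have b3 : (8 * v * R) * p ^ 2 = 8 * (R * p * (p * v)) := by ring
    rw [b3, hpv] at b2
    have b4 : R * p ≤ k ^ 2 * s := by
      apply mul_le_mul _ hps hp0.le (by positivity)
      have : 0 ≤ k ^ 2 := by positivity
      linarith
    have b5 : R * p * (s ^ 2 / 2) ≤ (k ^ 2 * s) * (s ^ 2 / 2) :=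
      mul_le_mul_of_nonneg_right b4 (by positivity)
    have b6 : (k ^ 2 * s) * (s ^ 2 / 2) = k ^ 2 * s ^ 3 / 2 := by ring
    linarith
  have gS : R + 2 * v ≤ 6 * v := by linarith
  have g2 : 4 * (R + 2 * v) * ((P - 2) * (p / 8)) ≤ k ^ 2 * s ^ 3 := by
    have b1 : (R + 2 * v) * ((P - 2) * p) ≤ (6 * v) * (P * p) := by
      apply mul_le_mul gS _ _ (by positivity)
      · exact mul_le_mul_of_nonneg_right (by linarith) hp0.le
      · exact mul_nonneg (by linarith) hp0.le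
    have b2 : (6 * v) * (P * p) = 6 * P * (p * v) := by ring
    rw [b2, hpv] at b1
    have b3 : 4 * (R + 2 * v) * ((P - 2) * (p / 8)) = (R + 2 * v) * ((P - 2) * p) / 2 := by ring
    have c1 : 3 * P / 2 ≤ k ^ 2 * s := by
      have d1 : 3 * P / 2 ≤ k := by linarith
      have d2 : k * 1 ≤ k * (k * s) := by
        apply mul_le_mul_of_nonneg_left _ (by linarith)
        nlinarith
      calc 3 * P / 2 ≤ k := d1
        _ = k * 1 := by ring
        _ ≤ k * (k * s) := d2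
        _ = k ^ 2 * s := by ring
    have c2 : (3 * P / 2) * s ^ 2 ≤ (k ^ 2 * s) * s ^ 2 :=
      mul_le_mul_of_nonneg_right c1 (by positivity)
    have c3 : (k ^ 2 * s) * s ^ 2 = k ^ 2 * s ^ 3 := by ring
    rw [b3]
    rw [c3] at c2
    have c4 : 6 * P * (s ^ 2 / 2) / 2 = (3 * P / 2) * s ^ 2 := by ring
    linarith
  have hs3' : s ≤ s ^ 3 := by
    have d1 : (1 : ℝ) ≤ s ^ 2 := by nlinarith
    calc s = s * 1 := by ring
      _ ≤ s * s ^ 2 := mul_le_mul_of_nonneg_left d1 hs0.le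
      _ = s ^ 3 := by ring
  have hkk : k ≤ k ^ 2 / 7 := by nlinarith
  have g3 : p / 2 * (8 * P ^ 2 + 8 * P + 4) ≤ 3 * (k ^ 2 * s ^ 3) := by
    have b1 : 8 * P ^ 2 + 8 * P + 4 ≤ 6 * k ^ 2 := by nlinarith
    have b2 : p / 2 * (8 * P ^ 2 + 8 * P + 4) ≤ s / 2 * (6 * k ^ 2) :=
      mul_le_mul (by linarith) b1 (by positivity) (by positivity)
    have b3 : k ^ 2 * s ≤ k ^ 2 * s ^ 3 := mul_le_mul_of_nonneg_left hs3' (by positivity)
    have b4 : s / 2 * (6 * k ^ 2) = 3 * (k ^ 2 * s) := by ring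
    linarith
  have g4 : p * ((R + 2 * v) * (P + 1)) ^ 2 ≤ 9 * (k ^ 2 * s ^ 3) := by
    have b1 : ((R + 2 * v) * (P + 1)) ^ 2 ≤ (6 * v * (P + 1)) ^ 2 := by
      apply pow_le_pow_left₀ (by positivity)
      exact mul_le_mul_of_nonneg_right gS (by linarith)
    have b2 : p * ((R + 2 * v) * (P + 1)) ^ 2 ≤ p * (6 * v * (P + 1)) ^ 2 :=
      mul_le_mul_of_nonneg_left b1 hp0.le
    have b3 : p * (6 * v * (P + 1)) ^ 2 = 36 * ((P + 1) ^ 2 * v) * (p * v) := by ring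
    rw [b3, hpv] at b2
    have b4 : (P + 1) ^ 2 ≤ k ^ 2 / 2 := by nlinarith
    have b5 : (P + 1) ^ 2 * v ≤ k ^ 2 / 2 * s :=
      mul_le_mul b4 hvs hv0.le (by positivity)
    have b6 : (P + 1) ^ 2 * v * s ^ 2 ≤ k ^ 2 / 2 * s * s ^ 2 :=
      mul_le_mul_of_nonneg_right b5 (by positivity)
    have b7 : k ^ 2 / 2 * s * s ^ 2 = k ^ 2 * s ^ 3 / 2 := by ring
    have b8 : 36 * ((P + 1) ^ 2 * v) * (s ^ 2 / 2) = 18 * ((P + 1) ^ 2 * v * s ^ 2) := by ring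
    rw [b8] at b2
    rw [b7] at b6
    linarith
  have g5 : p * v ^ 2 ≤ k ^ 2 * s ^ 3 := by
    have b1 : p * v ^ 2 = v * (p * v) := by ring
    rw [b1, hpv]
    have b2 : v * (s ^ 2 / 2) ≤ s * (s ^ 2 / 2) := mul_le_mul_of_nonneg_right hvs (by positivity)
    have b3 : 1 * s ^ 3 ≤ k ^ 2 * s ^ 3 := by
      apply mul_le_mul_of_nonneg_right _ (by positivity)
      nlinarith
    have b4 : s * (s ^ 2 / 2) = s ^ 3 / 2 := by ring
    have b5 : 0 < s ^ 3 := by positivity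
    linarith
  rw [g0]
  linarith

theorem upper_large (K : ℕ) (hK : 6 ≤ K) :
    (Q (K + 1) : ℝ) ≤ (4 : ℝ) ^ (K + 1) / 8
      + 15 * ((K + 1 : ℕ) : ℝ) ^ 2 * (2 : ℝ) ^ (3 * ((K + 1 : ℕ) : ℝ) / 2) := by
  obtain ⟨s, hs0, hs2, hs3⟩ := s_facts K
  rw [hs3]
  obtain ⟨m, hm⟩ : ∃ m, K / 2 = m + 3 := ⟨K / 2 - 3, by omega⟩
  obtain ⟨q, hq⟩ : ∃ q, K = m + 3 + q := ⟨K - (m + 3), by omega⟩
  have hq1 : m + 3 ≤ q := by omega
  have h1 := upper_key (m + 3) q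
  have h2 := upper_main m q
  rw [← hq] at h1 h2
  refine h1.trans (h2.trans ?_)
  have hR : RR (m + 3) ≤ 4 * 2 ^ q := by
    have := RR_le (m + 3) (by omega)
    have h3 : 2 ^ (m + 3) ≤ 2 ^ q := Nat.pow_le_pow_right (by norm_num) hq1
    rw [RR]
    omega
  have hR1 : (RR (m + 3) : ℝ) ≤ 4 * 2 ^ q := by exact_mod_cast hR
  have hS : (SP (m + 3) q : ℝ) = RR (m + 3) + 2 * 2 ^ q := by
    rw [SP]; push_cast; ring
  have hRP : (RR (m + 3) : ℝ) = ((m : ℝ) + 3) * (2 * ((m : ℝ) + 3) + 1) := by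
    rw [RR]; push_cast; ring
  have hm8 : (2 : ℝ) ^ m = 2 ^ (m + 3) / 8 := by rw [pow_add]; ring
  have hm2 : (2 : ℝ) ^ (m + 2) = 2 ^ (m + 3) / 2 := by rw [pow_add, pow_add]; ring
  have h4m : (4 : ℝ) ^ m = (2 ^ (m + 3) / 8) ^ 2 := by
    rw [← hm8, ← pow_mul, mul_comm, pow_mul]; norm_num
  have h4q : (4 : ℝ) ^ q = (2 ^ q) ^ 2 := by
    rw [← pow_mul, mul_comm, pow_mul]; norm_num
  have hpv : (2 : ℝ) ^ (m + 3) * 2 ^ q = s ^ 2 / 2 := by
    rw [hs2, ← pow_add, ← hq, pow_succ]; ring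
  have hps : (2 : ℝ) ^ (m + 3) ≤ s := by
    apply le_of_sq_le_sq _ hs0.le
    rw [hs2, ← pow_mul]
    exact pow_le_pow_right₀ (by norm_num) (by omega)
  have hvs : (2 : ℝ) ^ q ≤ s := by
    apply le_of_sq_le_sq _ hs0.le
    rw [hs2, ← pow_mul]
    exact pow_le_pow_right₀ (by norm_num) (by omega)
  have hK4' : (4 : ℝ) ^ (K + 1) = s ^ 4 := by
    rw [show s ^ 4 = (s ^ 2) ^ 2 by ring, hs2, ← pow_mul, mul_comm, pow_mul]
    norm_num
  have hPk : 2 * ((m : ℝ) + 3) ≤ ((K + 1 : ℕ) : ℝ) - 1 := by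
    have h5 : 2 * (m + 3) ≤ K := by omega
    have h6 : (2 : ℝ) * ((m : ℝ) + 3) ≤ K := by exact_mod_cast h5
    push_cast
    linarith
  have hs1 : 2 ≤ s := by
    apply le_of_sq_le_sq _ hs0.le
    rw [hs2]
    exact pow_le_pow_right₀ (by norm_num) (by omega)
  have e1 : (m : ℝ) + 1 = ((m : ℝ) + 3) - 2 := by ring
  have e2 : (m : ℝ) + 4 = ((m : ℝ) + 3) + 1 := by ring
  have hP3 : (3 : ℝ) ≤ (m : ℝ) + 3 := by
    have : (0 : ℝ) ≤ m := by positivity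
    linarith
  have := real_bound hR1 hRP (by positivity) (by positivity) hpv hps hvs hP3 hPk hs1
  rw [hS, h4m, hm2, h4q, hK4', hm8, e1, e2]
  exact this

theorem upper (K : ℕ) (hK : 1 ≤ K) :
    (Q (K + 1) : ℝ) ≤ (4 : ℝ) ^ (K + 1) / 8
      + 15 * ((K + 1 : ℕ) : ℝ) ^ 2 * (2 : ℝ) ^ (3 * ((K + 1 : ℕ) : ℝ) / 2) := by
  rcases Nat.lt_or_ge K 6 with h | h
  · obtain ⟨s, hs0, hs2, hs3⟩ := s_facts K
    rw [hs3]
    have h1 := upper_small (K + 1)
    have h2 : (8 : ℝ) ^ (K + 1) = s ^ 3 * s ^ 3 := by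
      rw [show s ^ 3 * s ^ 3 = (s ^ 2) ^ 3 by ring, hs2, ← pow_mul, mul_comm, pow_mul]
      norm_num
    have h8 : s ≤ 8 := by
      apply le_of_sq_le_sq _ (by norm_num)
      rw [hs2]
      calc (2 : ℝ) ^ (K + 1) ≤ 2 ^ 6 := pow_le_pow_right₀ (by norm_num) (by omega)
        _ = 8 ^ 2 := by norm_num
    have h3 : s ^ 3 ≤ 15 * ((K + 1 : ℕ) : ℝ) ^ 2 := by
      have h4 : s ^ 3 ≤ 8 * 2 ^ (K + 1) := by
        rw [show s ^ 3 = s * s ^ 2 by ring, hs2]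
        exact mul_le_mul_of_nonneg_right h8 (by positivity)
      refine h4.trans ?_
      interval_cases K <;> norm_num
    have h5 : s ^ 3 * s ^ 3 ≤ 15 * ((K + 1 : ℕ) : ℝ) ^ 2 * s ^ 3 :=
      mul_le_mul_of_nonneg_right h3 (by positivity)
    have h6 : (0 : ℝ) ≤ 4 ^ (K + 1) / 8 := by positivity
    rw [h2] at h1
    linarith
  · exact upper_large K h

/-- MAIN RESULT. `Q_k = 4^k / 8 + O(k^2 2^(3k/2))`. -/
theorem result (k : ℕ) (hk : 2 ≤ k) :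
    |(Q k : ℝ) - 4 ^ k / 8| ≤ 15 * (k : ℝ) ^ 2 * (2 : ℝ) ^ (3 * (k : ℝ) / 2) := by
  obtain ⟨K, rfl⟩ : ∃ K, k = K + 1 := ⟨k - 1, by omega⟩
  have h1 := lower K (by omega)
  have h2 := upper K (by omega)
  rw [abs_le]
  constructor <;> linarith

/-- Corollary: `Q_k / 4^k → 1/8`. -/
theorem tendsto_Q :
    Filter.Tendsto (fun k : ℕ => (Q k : ℝ) / 4 ^ k) Filter.atTop (nhds (1 / 8)) := by
  rw [tendsto_iff_dist_tendsto_zero]
  have hr0 : (0 : ℝ) < (2 : ℝ) ^ (-(1 / 2) : ℝ) := by positivity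
  have hr1 : (2 : ℝ) ^ (-(1 / 2) : ℝ) < 1 := by
    apply Real.rpow_lt_one_of_one_lt_of_neg <;> norm_num
  have hlim : Filter.Tendsto
      (fun k : ℕ => 15 * ((k : ℝ) ^ 2 * ((2 : ℝ) ^ (-(1 / 2) : ℝ)) ^ k)) Filter.atTop (nhds 0) := by
    have := tendsto_pow_const_mul_const_pow_of_abs_lt_one 2
      (by rw [abs_of_pos hr0]; exact hr1 : |(2 : ℝ) ^ (-(1 / 2) : ℝ)| < 1)
    simpa using this.const_mul 15
  refine squeeze_zero' (Filter.Eventually.of_forall fun _ => dist_nonneg) ?_ hlim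
  filter_upwards [Filter.eventually_ge_atTop 2] with k hk
  have h1 := result k hk
  have h4 : (0 : ℝ) < 4 ^ k := by positivity
  rw [Real.dist_eq]
  have h2 : (Q k : ℝ) / 4 ^ k - 1 / 8 = ((Q k : ℝ) - 4 ^ k / 8) / 4 ^ k := by
    field_simp
  rw [h2, abs_div, abs_of_pos h4, div_le_iff₀ h4]
  refine h1.trans (le_of_eq ?_)
  have h3 : (2 : ℝ) ^ (3 * (k : ℝ) / 2) = ((2 : ℝ) ^ (-(1 / 2) : ℝ)) ^ k * 4 ^ k := by
    rw [← Real.rpow_natCast, ← Real.rpow_mul (by norm_num),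
      show (4 : ℝ) = 2 ^ (2 : ℝ) by norm_num, ← Real.rpow_natCast,
      ← Real.rpow_mul (by norm_num), ← Real.rpow_add (by norm_num)]
    congr 1
    ring
  rw [h3]
  ring

end Pool.Agent.Results.MP_870659_co.SquareAsymptotics
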