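import Pool.Agent.H38.BT.Depth

/-! An explicit integer key for the vertices of the complete binary tree of height `P + q`:
the `2^P` subtrees of height `q` are in-order in consecutive blocks, the vertices of depth
`< P` sit between the blocks at (almost) harmonic positions. -/

noncomputable section

namespace H38.BT

/-- index of a vertex in its level -/
def idx : List Bool → ℕ
  | [] => 0
  | b :: l => 2 * idx l + (if b then 1 else 0)

/-- number of right turns minus number of left turns -/
def sg : List Bool → ℤ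
  | [] => 0
  | b :: l => sg l + (if b then 1 else -1)

theorem idx_lt : ∀ l : List Bool, idx l < 2 ^ l.length
  | [] => by simp [idx]
  | b :: l => by
      have := idx_lt l
      have h : 2 ^ (l.length + 1) = 2 * 2 ^ l.length := by ring
      simp only [List.length_cons, idx]
      cases b <;> simp <;> omega

theorem idx_inj : ∀ l l' : List Bool, l.length = l'.length → idx l = idx l' → l = l'
  | [], [], _, _ => rfl
  | [], b :: l, h, _ => by simp at h
  | b :: l, [], h, _ => by simp at h
  | b :: l, b' :: l', h, h2 => by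
      have h1 : idx l = idx l' ∧ b = b' := by
        simp only [idx] at h2
        cases b <;> cases b' <;> simp at h2 ⊢ <;> omega
      have h3 : l.length = l'.length := by simpa using h
      rw [idx_inj l l' h3 h1.1, h1.2]

theorem sg_abs : ∀ l : List Bool, |sg l| ≤ l.length
  | [] => by simp [sg]
  | b :: l => by
      have := sg_abs l
      simp only [List.length_cons, sg]
      rw [abs_le] at this ⊢
      push_cast
      cases b <;> simp <;> constructor <;> omega

/-- room between two blocks -/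
def RR (P : ℕ) : ℕ := P * (2 * P + 1)

/-- period of the blocks -/
def SP (P q : ℕ) : ℕ := RR P + 2 ^ (q + 1)

/-- block (or slot) of a vertex -/
def slotA (P : ℕ) (l : List Bool) : ℤ :=
  if l.length < P then
    2 ^ (P - 1 - l.length) * (2 * (idx l : ℤ) + 1) - 2 ^ (P - 2 - l.length) * sg l
  else ((idx l / 2 ^ (l.length - P) : ℕ) : ℤ)

/-- position inside the period -/
def resB (P q : ℕ) (l : List Bool) : ℤ :=
  if l.length < P then l.length * (2 * P + 1) + sg l + P
  else RR P + (2 * ((idx l % 2 ^ (l.length - P) : ℕ) : ℤ) + 1) * 2 ^ (P + q - l.length)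

/-- the key -/
def key (P q : ℕ) (l : List Bool) : ℤ := SP P q * slotA P l + resB P q l

theorem resB_top {P q : ℕ} {l : List Bool} (h : l.length < P) :
    0 ≤ resB P q l ∧ resB P q l < RR P := by
  have h1 := abs_le.mp (sg_abs l)
  rw [resB, if_pos h, RR]
  push_cast
  have h2 : (l.length : ℤ) + 1 ≤ P := by exact_mod_cast h
  have h0 : (0 : ℤ) ≤ l.length := by positivity
  constructor
  · nlinarith
  · nlinarith

theorem resB_bot {P q : ℕ} {l : List Bool} (h : P ≤ l.length) (h' : l.length ≤ P + q) :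
    (RR P : ℤ) < resB P q l ∧ resB P q l < SP P q := by
  rw [resB, if_neg (by omega), SP]
  obtain ⟨e, he⟩ : ∃ e, l.length = P + e := ⟨l.length - P, by omega⟩
  have h1 : l.length - P = e := by omega
  have h2 : P + q - l.length = q - e := by omega
  rw [h1, h2]
  have h3 : idx l % 2 ^ e < 2 ^ e := Nat.mod_lt _ (by positivity)
  have h4 : ((idx l % 2 ^ e : ℕ) : ℤ) + 1 ≤ 2 ^ e := by exact_mod_cast h3
  have h5 : (2 : ℤ) ^ (q + 1) = 2 * 2 ^ e * 2 ^ (q - e) := by
    rw [mul_assoc, ← pow_add, show e + (q - e) = q by omega]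
    ring
  have h6 : (0 : ℤ) < 2 ^ (q - e) := by positivity
  have h7 : (0 : ℤ) ≤ ((idx l % 2 ^ e : ℕ) : ℤ) := by positivity
  push_cast at *
  rw [h5]
  constructor
  · nlinarith
  · nlinarith

theorem odd_pow {t t' a a' : ℕ} (h : (2 * t + 1) * 2 ^ a = (2 * t' + 1) * 2 ^ a') :
    a = a' ∧ t = t' := by
  rcases lt_trichotomy a a' with hl | hl | hl
  · obtain ⟨c, rfl⟩ : ∃ c, a' = a + 1 + c := ⟨a' - a - 1, by omega⟩
    have h1 : (2 * t' + 1) * 2 ^ (a + 1 + c) = (2 * ((2 * t' + 1) * 2 ^ c)) * 2 ^ a := by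
      rw [pow_add, pow_add]; ring
    rw [h1] at h
    have := Nat.eq_of_mul_eq_mul_right (by positivity) h
    omega
  · subst hl
    have := Nat.eq_of_mul_eq_mul_right (by positivity) h
    exact ⟨rfl, by omega⟩
  · obtain ⟨c, rfl⟩ : ∃ c, a = a' + 1 + c := ⟨a - a' - 1, by omega⟩
    have h1 : (2 * t + 1) * 2 ^ (a' + 1 + c) = (2 * ((2 * t + 1) * 2 ^ c)) * 2 ^ a' := by
      rw [pow_add, pow_add]; ring
    rw [h1] at h
    have := Nat.eq_of_mul_eq_mul_right (by positivity) h
    omega

theorem key_inj (P q : ℕ) : Set.InjOn (key P q) {l | l.length ≤ P + q} := by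
  intro l hl l' hl' h
  have hl1 : l.length ≤ P + q := hl
  have hl1' : l'.length ≤ P + q := hl'
  have hS : (0 : ℤ) < SP P q := by
    have : 0 < SP P q := by rw [SP]; positivity
    exact_mod_cast this
  have hRS : (RR P : ℤ) ≤ SP P q := by
    have : RR P ≤ SP P q := Nat.le_add_right _ _
    exact_mod_cast this
  have hr0 : (0 : ℤ) ≤ RR P := by positivity
  have hres : ∀ m : List Bool, m.length ≤ P + q → 0 ≤ resB P q m ∧ resB P q m < SP P q := by
    intro m hm
    rcases Nat.lt_or_ge m.length P with h1 | h1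
    · have := resB_top (q := q) h1
      exact ⟨this.1, lt_of_lt_of_le this.2 hRS⟩
    · have := resB_bot (q := q) h1 hm
      exact ⟨by omega, this.2⟩
  have e1 := (Int.ediv_emod_unique hS (a := key P q l) (r := resB P q l) (q := slotA P l)).mpr
    ⟨by rw [key]; ring, (hres l hl1).1, (hres l hl1).2⟩
  have e2 := (Int.ediv_emod_unique hS (a := key P q l') (r := resB P q l')
    (q := slotA P l')).mpr ⟨by rw [key]; ring, (hres l' hl1').1, (hres l' hl1').2⟩
  rw [h] at e1
  have hA : slotA P l = slotA P l' := by rw [← e1.1, e2.1]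
  have hB : resB P q l = resB P q l' := by rw [← e1.2, e2.2]
  rcases Nat.lt_or_ge l.length P with h1 | h1 <;> rcases Nat.lt_or_ge l'.length P with h2 | h2
  · rw [resB, if_pos h1, resB, if_pos h2] at hB
    have s1 := abs_le.mp (sg_abs l)
    have s2 := abs_le.mp (sg_abs l')
    have b1 : (l.length : ℤ) + 1 ≤ P := by exact_mod_cast h1
    have b2 : (l'.length : ℤ) + 1 ≤ P := by exact_mod_cast h2
    have hlen : (l.length : ℤ) = l'.length := by
      rcases lt_trichotomy (l.length : ℤ) l'.length with h3 | h3 | h3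
      · nlinarith
      · exact h3
      · nlinarith
    have hlen' : l.length = l'.length := by exact_mod_cast hlen
    have hsg : sg l = sg l' := by rw [hlen] at hB; linarith
    rw [slotA, if_pos h1, slotA, if_pos h2, hlen', hsg] at hA
    have h4 : (2 : ℤ) ^ (P - 1 - l'.length) * (2 * (idx l : ℤ) + 1)
        = 2 ^ (P - 1 - l'.length) * (2 * (idx l' : ℤ) + 1) := by linarith
    have h5 : (2 * (idx l : ℤ) + 1) = 2 * (idx l' : ℤ) + 1 :=
      mul_left_cancel₀ (by positivity) h4
    exact idx_inj _ _ hlen' (by omega)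
  · have := resB_top (q := q) h1
    have := resB_bot (q := q) h2 hl1'
    omega
  · have := resB_top (q := q) h2
    have := resB_bot (q := q) h1 hl1
    omega
  · rw [resB, if_neg (by omega), resB, if_neg (by omega)] at hB
    have h3 : (2 * (idx l % 2 ^ (l.length - P)) + 1) * 2 ^ (P + q - l.length)
        = (2 * (idx l' % 2 ^ (l'.length - P)) + 1) * 2 ^ (P + q - l'.length) := by
      have : ((2 * ((idx l % 2 ^ (l.length - P) : ℕ) : ℤ) + 1) * 2 ^ (P + q - l.length))
        = ((2 * ((idx l' % 2 ^ (l'.length - P) : ℕ) : ℤ) + 1) * 2 ^ (P + q - l'.length)) := by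
        linarith
      exact_mod_cast this
    obtain ⟨h4, h5⟩ := odd_pow h3
    have hlen : l.length = l'.length := by omega
    rw [slotA, if_neg (by omega), slotA, if_neg (by omega)] at hA
    have h6 : idx l / 2 ^ (l.length - P) = idx l' / 2 ^ (l'.length - P) := by exact_mod_cast hA
    apply idx_inj _ _ hlen
    rw [← Nat.div_add_mod (idx l) (2 ^ (l.length - P)),
      ← Nat.div_add_mod (idx l') (2 ^ (l'.length - P)), h5, h6, hlen]

/-- the key as a real number -/
def kr (P q : ℕ) (l : List Bool) : ℝ := (key P q l : ℝ)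

/-- sign of a turn -/
def eps (b : Bool) : ℝ := if b then 1 else -1

theorem diff_top {P q e : ℕ} {l : List Bool} (h : l.length + 3 + e = P) (b : Bool) :
    kr P q (b :: l) - kr P q l
      = SP P q * (2 ^ e * (eps b + sg l)) + ((2 * P + 1) + eps b) := by
  have h1 : l.length < P := by omega
  have h2 : (b :: l).length < P := by simp; omega
  have a1 : P - 1 - (b :: l).length = e + 1 := by simp; omega
  have a2 : P - 2 - (b :: l).length = e := by simp; omega
  have a3 : P - 1 - l.length = e + 2 := by omega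
  have a4 : P - 2 - l.length = e + 1 := by omega
  rw [kr, kr, key, key, slotA, if_pos h2, slotA, if_pos h1, resB, if_pos h2, resB, if_pos h1,
    a1, a2, a3, a4]
  simp only [List.length_cons, idx, sg, eps]
  cases b <;> simp <;> ring

theorem diff_two {P q : ℕ} {l : List Bool} (h : l.length + 2 = P) (b : Bool) :
    kr P q (b :: l) - kr P q l = (2 * P + 1) + eps b := by
  have h1 : l.length < P := by omega
  have h2 : (b :: l).length < P := by simp; omega
  have a1 : P - 1 - (b :: l).length = 0 := by simp; omega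
  have a2 : P - 2 - (b :: l).length = 0 := by simp; omega
  have a3 : P - 1 - l.length = 1 := by omega
  have a4 : P - 2 - l.length = 0 := by omega
  rw [kr, kr, key, key, slotA, if_pos h2, slotA, if_pos h1, resB, if_pos h2, resB, if_pos h1,
    a1, a2, a3, a4]
  simp only [List.length_cons, idx, sg, eps]
  cases b <;> simp <;> ring

theorem diff_one {P q : ℕ} {l : List Bool} (h : l.length + 1 = P) (b : Bool) :
    |kr P q (b :: l) - kr P q l| ≤ SP P q * (P + 1) := by
  have h1 : l.length < P := by omega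
  have h2 : ¬ (b :: l).length < P := by simp; omega
  have a0 : (b :: l).length - P = 0 := by simp; omega
  have a1 : P + q - (b :: l).length = q := by simp; omega
  have a3 : P - 1 - l.length = 0 := by omega
  have a4 : P - 2 - l.length = 0 := by omega
  have hr := resB_top (q := q) h1
  have hr1 : (0 : ℝ) ≤ (resB P q l : ℝ) := by exact_mod_cast hr.1
  have hr2 : (resB P q l : ℝ) ≤ RR P := by exact_mod_cast hr.2.le
  have hs := abs_le.mp (sg_abs l)
  have hs1 : -((P : ℝ) - 1) ≤ (sg l : ℝ) := by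
    have : -((P : ℤ) - 1) ≤ sg l := by omega
    exact_mod_cast this
  have hs2 : (sg l : ℝ) ≤ (P : ℝ) - 1 := by
    have : sg l ≤ (P : ℤ) - 1 := by omega
    exact_mod_cast this
  have hS : (SP P q : ℝ) = RR P + 2 * 2 ^ q := by
    rw [SP]; push_cast; ring
  have hR0 : (0 : ℝ) ≤ RR P := by positivity
  have hq0 : (0 : ℝ) < 2 ^ q := by positivity
  have hres : (resB P q (b :: l) : ℝ) = RR P + 2 ^ q := by
    rw [resB, if_neg h2, a0, a1]
    push_cast
    simp
  have hslot : (slotA P (b :: l) : ℝ) - slotA P l = (if b then 1 else 0) - 1 + sg l := by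
    rw [slotA, if_neg h2, slotA, if_pos h1, a0, a3, a4]
    simp only [idx]
    cases b <;> simp <;> ring
  have hd : kr P q (b :: l) - kr P q l
      = SP P q * ((if b then (1 : ℝ) else 0) - 1 + sg l) + (RR P + 2 ^ q - resB P q l) := by
    rw [kr, kr, key, key]
    push_cast
    rw [hres, ← hslot]
    ring
  rw [hd]
  have hb1 : (0 : ℝ) ≤ (if b then (1 : ℝ) else 0) := by split_ifs <;> norm_num
  have hb2 : (if b then (1 : ℝ) else 0) ≤ 1 := by split_ifs <;> norm_num
  set β : ℝ := if b then (1 : ℝ) else 0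
  have hSP0 : (0 : ℝ) ≤ SP P q := by positivity
  have m1 : (SP P q : ℝ) * (β - 1 + sg l) ≤ SP P q * P :=
    mul_le_mul_of_nonneg_left (by linarith) hSP0
  have m2 : (SP P q : ℝ) * (-P) ≤ SP P q * (β - 1 + sg l) :=
    mul_le_mul_of_nonneg_left (by linarith) hSP0
  rw [abs_le]
  constructor
  · nlinarith
  · nlinarith

theorem diff_bot {P q e : ℕ} {l : List Bool} (h : l.length = P + e) (he : e < q) (b : Bool) :
    kr P q (b :: l) - kr P q l = eps b * 2 ^ (q - 1 - e) := by
  have h1 : ¬ l.length < P := by omega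
  have h2 : ¬ (b :: l).length < P := by simp; omega
  have a0 : (b :: l).length - P = e + 1 := by simp; omega
  have a1 : P + q - (b :: l).length = q - 1 - e := by simp; omega
  have a2 : l.length - P = e := by omega
  have a3 : P + q - l.length = (q - 1 - e) + 1 := by omega
  have hdiv : idx (b :: l) / 2 ^ (e + 1) = idx l / 2 ^ e := by
    rw [pow_succ', ← Nat.div_div_eq_div_mul]
    congr 1
    simp only [idx]
    cases b <;> simp <;> omega
  have hmod : idx (b :: l) % 2 ^ (e + 1) = 2 * (idx l % 2 ^ e) + (if b then 1 else 0) := by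
    have e1 := Nat.div_add_mod (idx (b :: l)) (2 ^ (e + 1))
    have e2 := Nat.div_add_mod (idx l) (2 ^ e)
    rw [hdiv, pow_succ', mul_assoc] at e1
    have e3 : idx (b :: l) = 2 * idx l + (if b then 1 else 0) := rfl
    rw [pow_succ']
    omega
  rw [kr, kr, key, key, slotA, if_neg h2, slotA, if_neg h1, resB, if_neg h2, resB, if_neg h1,
    a0, a1, a2, a3, hdiv, hmod]
  simp only [eps]
  cases b <;> simp <;> ring

/-! ### the cost of the key -/

theorem SS_sg : ∀ d : ℕ, SS d (fun l => (sg l : ℝ)) = 0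
  | 0 => by simp [SS, sg]
  | d + 1 => by
      have ih := SS_sg d
      simp only [SS, sg]
      push_cast
      rw [SS_add d (fun l => (sg l : ℝ)) (fun _ => (1 : ℝ)),
        SS_add d (fun l => (sg l : ℝ)) (fun _ => (-1 : ℝ)), SS_const, SS_const, ih]
      ring

theorem SS_sg2 : ∀ d : ℕ, SS d (fun l => (sg l : ℝ) ^ 2) = 2 ^ d * d
  | 0 => by simp [SS, sg]
  | d + 1 => by
      have ih := SS_sg2 d
      have h0 := SS_sg d
      have e1 : SS d (fun l => (sg (true :: l) : ℝ) ^ 2)
          = SS d (fun l => (sg l : ℝ) ^ 2) + (2 * SS d (fun l => (sg l : ℝ)) + 2 ^ d * 1) := by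
        rw [← SS_const, ← SS_mul, ← SS_add, ← SS_add]
        congr 1
        funext l
        simp only [sg]
        push_cast
        ring
      have e2 : SS d (fun l => (sg (false :: l) : ℝ) ^ 2)
          = SS d (fun l => (sg l : ℝ) ^ 2) + (-2 * SS d (fun l => (sg l : ℝ)) + 2 ^ d * 1) := by
        rw [← SS_const, ← SS_mul, ← SS_add, ← SS_add]
        congr 1
        funext l
        simp only [sg]
        push_cast
        ring
      have e3 : SS (d + 1) (fun l => (sg l : ℝ) ^ 2)
          = SS d (fun l => (sg (true :: l) : ℝ) ^ 2) + SS d (fun l => (sg (false :: l) : ℝ) ^ 2) :=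
        rfl
      rw [e3, e1, e2, ih, h0]
      push_cast
      ring

theorem lev_top {P q e d : ℕ} (h : d + 3 + e = P) :
    SS d (gg (kr P q)) = (SP P q : ℝ) ^ 2 * 4 ^ e * (2 ^ (d + 1) * (1 + d))
      + 4 * SP P q * 2 ^ (d + e) + 2 ^ d * (8 * P ^ 2 + 8 * P + 4) := by
  have e0 : SS d (gg (kr P q)) = SS d (fun l =>
      (2 * (SP P q : ℝ) ^ 2 * 4 ^ e) * (sg l : ℝ) ^ 2
      + ((2 * SP P q * 2 ^ e * (4 * P + 2)) * (sg l : ℝ)
        + ((SP P q : ℝ) ^ 2 * 4 ^ e * 2 + 4 * SP P q * 2 ^ e + (8 * P ^ 2 + 8 * P + 4)))) := by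
    apply SS_congr
    intro l hl
    have d1 := diff_top (P := P) (q := q) (e := e) (l := l) (by omega) true
    have d2 := diff_top (P := P) (q := q) (e := e) (l := l) (by omega) false
    have f1 : kr P q l - kr P q (true :: l)
      = -(SP P q * (2 ^ e * (eps true + sg l)) + ((2 * P + 1) + eps true)) := by linarith
    have f2 : kr P q l - kr P q (false :: l)
      = -(SP P q * (2 ^ e * (eps false + sg l)) + ((2 * P + 1) + eps false)) := by linarith
    have h4 : (4 : ℝ) ^ e = (2 ^ e) ^ 2 := by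
      rw [← pow_mul, mul_comm, pow_mul]; norm_num
    rw [gg, f1, f2, h4]
    simp only [eps]
    simp
    ring
  rw [e0, SS_add, SS_mul, SS_add, SS_mul, SS_const, SS_sg, SS_sg2]
  ring

theorem lev_two {P q d : ℕ} (h : d + 2 = P) :
    SS d (gg (kr P q)) = 2 ^ d * (8 * P ^ 2 + 8 * P + 4) := by
  rw [← SS_const]
  apply SS_congr
  intro l hl
  have d1 := diff_two (P := P) (q := q) (l := l) (by omega) true
  have d2 := diff_two (P := P) (q := q) (l := l) (by omega) false
  have f1 : kr P q l - kr P q (true :: l) = -((2 * P + 1) + eps true) := by linarith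
  have f2 : kr P q l - kr P q (false :: l) = -((2 * P + 1) + eps false) := by linarith
  rw [gg, f1, f2]
  simp only [eps]
  simp
  ring

theorem lev_one {P q d : ℕ} (h : d + 1 = P) :
    SS d (gg (kr P q)) ≤ 2 ^ d * (2 * (SP P q * (P + 1)) ^ 2) := by
  rw [← SS_const]
  apply SS_mono
  intro l hl
  have d1 := diff_one (P := P) (q := q) (l := l) (by omega) true
  have d2 := diff_one (P := P) (q := q) (l := l) (by omega) false
  rw [abs_sub_comm] at d1 d2
  have s1 := sq_le_sq' (abs_le.mp d1).1 (abs_le.mp d1).2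
  have s2 := sq_le_sq' (abs_le.mp d2).1 (abs_le.mp d2).2
  rw [gg]
  linarith

theorem lev_bot {P q e : ℕ} (he : e < q) :
    SS (P + e) (gg (kr P q)) = 2 ^ (P + e) * (2 * 4 ^ (q - 1 - e)) := by
  rw [← SS_const]
  apply SS_congr
  intro l hl
  have d1 := diff_bot (P := P) (q := q) (e := e) (l := l) hl he true
  have d2 := diff_bot (P := P) (q := q) (e := e) (l := l) hl he false
  have f1 : kr P q l - kr P q (true :: l) = -(eps true * 2 ^ (q - 1 - e)) := by linarith
  have f2 : kr P q l - kr P q (false :: l) = -(eps false * 2 ^ (q - 1 - e)) := by linarith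
  have h4 : (4 : ℝ) ^ (q - 1 - e) = (2 ^ (q - 1 - e)) ^ 2 := by
    rw [← pow_mul, mul_comm, pow_mul]; norm_num
  rw [gg, f1, f2, h4]
  simp only [eps]
  simp
  ring

theorem sum_top (m : ℕ) : ∑ d ∈ Finset.range (m + 1), (4 : ℝ) ^ (m - d) * (2 ^ (d + 1) * (1 + d))
    = 8 * 4 ^ m - 2 ^ m * (2 * m + 6) := by
  induction m with
  | zero => norm_num
  | succ m ih =>
      rw [Finset.sum_range_succ]
      have h1 : ∑ d ∈ Finset.range (m + 1), (4 : ℝ) ^ (m + 1 - d) * (2 ^ (d + 1) * (1 + d))
          = 4 * ∑ d ∈ Finset.range (m + 1), (4 : ℝ) ^ (m - d) * (2 ^ (d + 1) * (1 + d)) := by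
        rw [Finset.mul_sum]
        apply Finset.sum_congr rfl
        intro d hd
        have : d ≤ m := by simpa [Nat.lt_succ_iff] using hd
        rw [show m + 1 - d = (m - d) + 1 by omega]
        ring
      rw [h1, ih]
      simp
      ring

theorem sum_bot (q : ℕ) : ∑ e ∈ Finset.range q, (2 : ℝ) ^ (e + 1) * 4 ^ (q - 1 - e)
    = 4 ^ q - 2 ^ q := by
  induction q with
  | zero => simp
  | succ q ih =>
      rw [Finset.sum_range_succ]
      have h1 : ∑ e ∈ Finset.range q, (2 : ℝ) ^ (e + 1) * 4 ^ (q + 1 - 1 - e)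
          = 4 * ∑ e ∈ Finset.range q, (2 : ℝ) ^ (e + 1) * 4 ^ (q - 1 - e) := by
        rw [Finset.mul_sum]
        apply Finset.sum_congr rfl
        intro e he
        have : e < q := by simpa using he
        rw [show q + 1 - 1 - e = (q - 1 - e) + 1 by omega]
        ring
      rw [h1, ih]
      simp
      ring

/-- UPPER BOUND for the key -/
theorem upper_main (m q : ℕ) :
    E (m + 3 + q) (kr (m + 3) q)
      ≤ (SP (m + 3) q : ℝ) ^ 2 * (8 * 4 ^ m) + 4 * SP (m + 3) q * ((m + 1) * 2 ^ m)
        + 2 ^ (m + 2) * (8 * (m + 3) ^ 2 + 8 * (m + 3) + 4)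
        + 2 ^ (m + 3) * (SP (m + 3) q * (m + 4)) ^ 2 + 2 ^ (m + 3) * 4 ^ q := by
  set S : ℝ := (SP (m + 3) q : ℝ) with hS
  have hS0 : 0 ≤ S := by rw [hS]; positivity
  rw [E_eq, Finset.sum_range_add, show m + 3 = (m + 1) + 1 + 1 by ring, Finset.sum_range_succ,
    Finset.sum_range_succ]
  have t1 : ∑ d ∈ Finset.range (m + 1), SS d (gg (kr (m + 1 + 1 + 1) q))
      = S ^ 2 * (8 * 4 ^ m - 2 ^ m * (2 * m + 6)) + 4 * S * ((m + 1) * 2 ^ m)
        + (2 ^ (m + 1) - 1) * (8 * ((m : ℝ) + 3) ^ 2 + 8 * (m + 3) + 4) := by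
    have h1 : ∀ d ∈ Finset.range (m + 1), SS d (gg (kr (m + 1 + 1 + 1) q))
        = S ^ 2 * (4 ^ (m - d) * (2 ^ (d + 1) * (1 + d))) + 4 * S * 2 ^ m
          + 2 ^ d * (8 * ((m : ℝ) + 3) ^ 2 + 8 * (m + 3) + 4) := by
      intro d hd
      have hd' : d ≤ m := by simpa [Nat.lt_succ_iff] using hd
      rw [lev_top (e := m - d) (by omega), show d + (m - d) = m by omega]
      rw [hS]
      push_cast
      ring
    rw [Finset.sum_congr rfl h1, Finset.sum_add_distrib, Finset.sum_add_distrib,
      ← Finset.mul_sum, sum_top, Finset.sum_const, ← Finset.sum_mul]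
    have h2 : ∑ i ∈ Finset.range (m + 1), (2 : ℝ) ^ i = 2 ^ (m + 1) - 1 := by
      have := geom_sum_eq (by norm_num : (2 : ℝ) ≠ 1) (m + 1)
      rw [this]
      norm_num
    rw [h2]
    simp
    ring
  have t2 : SS (m + 1) (gg (kr (m + 1 + 1 + 1) q))
      = 2 ^ (m + 1) * (8 * ((m : ℝ) + 3) ^ 2 + 8 * (m + 3) + 4) := by
    rw [lev_two (by ring)]
    push_cast
    ring
  have t3 : SS (m + 1 + 1) (gg (kr (m + 1 + 1 + 1) q)) ≤ 2 ^ (m + 3) * (S * (m + 4)) ^ 2 := by
    refine (lev_one (by ring)).trans (le_of_eq ?_)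
    rw [hS]
    push_cast
    ring
  have t4 : ∑ e ∈ Finset.range q, SS (m + 1 + 1 + 1 + e) (gg (kr (m + 1 + 1 + 1) q))
      = 2 ^ (m + 3) * (4 ^ q - 2 ^ q) := by
    rw [← sum_bot, Finset.mul_sum]
    apply Finset.sum_congr rfl
    intro e he
    have he' : e < q := by simpa using he
    rw [lev_bot he']
    ring
  rw [t1, t2, t4]
  have p1 : (0 : ℝ) ≤ 2 ^ m := by positivity
  have p2 : (0 : ℝ) ≤ 2 ^ q := by positivity
  have p3 : (0 : ℝ) ≤ S ^ 2 * (2 ^ m * (2 * m + 6)) := by positivity
  have p4 : (0 : ℝ) ≤ 8 * ((m : ℝ) + 3) ^ 2 + 8 * (m + 3) + 4 := by positivity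
  have p5 : (2 : ℝ) ^ (m + 1) = 2 * 2 ^ m := by ring
  have p6 : (2 : ℝ) ^ (m + 2) = 4 * 2 ^ m := by ring
  have p7 : (0 : ℝ) ≤ 2 ^ (m + 3) * 2 ^ q := by positivity
  rw [p5, p6]
  nlinarith

end H38.BT
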